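import Pool.Agent.Q81.SP.Fin

/-!
Every symmetric set of `n - 1` permutations of `n` letters without the two monotone permutations
is Schur-positive; its generating function is a single Schur function.
Here `n = m + 1`, and `S_n` is the group of permutations of `Fin (m + 1)`.
-/

open Finset Pool.Agent.Q81.SP

namespace Pool.Agent.Results.MP_8fe44f_co.MinimalSymmetricSets

/-- a nonnegative integer combination of Schur functions of degree `n` -/
def SchurPositive (n : ℕ) (f : MvPowerSeries ℕ ℤ) : Prop :=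
  ∃ c : YoungDiagram →₀ ℕ, (∀ Λ ∈ c.support, Λ.card = n) ∧ f = c.sum fun Λ k => k • schur Λ

theorem result (m : ℕ) (hm : 1 ≤ m) (S : Finset (Equiv.Perm (Fin (m + 1)))) (hcard : S.card = m)
    (hid : (1 : Equiv.Perm (Fin (m + 1))) ∉ S) (hrev : Fin.revPerm ∉ S) (hsym : IsSymm (Q S)) :
    SchurPositive (m + 1) (Q S) ∧
    ∃ Λ : YoungDiagram, Λ.card = m + 1 ∧ Q S = schur Λ ∧
      (Λ = hook m ∨ Λ = (hook m).transpose ∨ (m = 5 ∧ (Λ = rect ∨ Λ = rect.transpose))) := by
  have key := main hm hcard hid hrev hsym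
  refine ⟨?_, key⟩
  obtain ⟨Λ, h1, h2, _⟩ := key
  refine ⟨Finsupp.single Λ 1, ?_, ?_⟩
  · intro Λ' h
    have := Finsupp.support_single_subset h
    rw [Finset.mem_singleton] at this
    rw [this, h1]
  · have h3 := Finsupp.sum_single_index (a := Λ) (b := 1)
      (h := fun (Λ : YoungDiagram) (k : ℕ) => k • schur Λ) (zero_smul ℕ _)
    rw [h3, one_smul, h2]

end Pool.Agent.Results.MP_8fe44f_co.MinimalSymmetricSets
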